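import Pool.Agent.Results.MP_b43922_gt.ControlledMilnorWood

set_option autoImplicit false

open Real Matrix Filter Topology
open scoped LinearAlgebra.Projectivization MatrixGroups commutatorElement

namespace Y912.MW

open Pool.Agent.Results.MP_b43922_gt.ControlledMilnorWood

/-! ### Diagonal matrices -/

theorem dMat_mul {a b : ℝ} (ha : 0 < a) (hb : 0 < b) :
    dMat a ha * dMat b hb = dMat (a * b) (mul_pos ha hb) := by
  apply Subtype.ext
  change !![a, 0; 0, a⁻¹] * !![b, 0; 0, b⁻¹] = !![a * b, 0; 0, (a * b)⁻¹]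
  rw [Matrix.mul_fin_two]
  simp [mul_comm]

theorem dMat_pow {a : ℝ} (ha : 0 < a) (N : ℕ) :
    dMat a ha ^ N = dMat (a ^ N) (pow_pos ha N) := by
  induction N with
  | zero =>
    apply Subtype.ext
    change (1 : Matrix (Fin 2) (Fin 2) ℝ) = !![a ^ 0, 0; 0, (a ^ 0)⁻¹]
    rw [pow_zero, inv_one, Matrix.one_fin_two]
  | succ n ih =>
    rw [pow_succ, ih, dMat_mul]
    congr 1

theorem exists_s' {ψ θ : ℝ} (hψ1 : ψ < π / 2) (hθ0 : 0 < θ) (hθψ : θ ≤ ψ) :
    ∃ s : ℝ, ∃ _ : 0 < s, (s * s + (s * s)⁻¹) * cos ψ = 2 * cos θ := by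
  have hpi := pi_pos
  have hcψ0 : 0 < cos ψ := cos_pos_of_mem_Ioo ⟨by linarith, hψ1⟩
  have hcc : cos ψ ≤ cos θ := cos_le_cos_of_nonneg_of_le_pi hθ0.le (by linarith) hθψ
  set c := cos θ / cos ψ with hc
  have hc1 : 1 ≤ c := by rw [hc, le_div_iff₀ hcψ0]; linarith
  set q := √(c ^ 2 - 1) with hq
  have hq2 : q ^ 2 = c ^ 2 - 1 := Real.sq_sqrt (by nlinarith)
  have hq0 : 0 ≤ q := Real.sqrt_nonneg _
  set t := c + q with ht
  have ht0 : 0 < t := by linarith
  have htinv : t⁻¹ = c - q := by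
    apply inv_eq_of_mul_eq_one_right
    rw [ht]; nlinarith
  refine ⟨√t, Real.sqrt_pos.2 ht0, ?_⟩
  rw [Real.mul_self_sqrt ht0.le, htinv, ht]
  have : (c + q + (c - q)) = 2 * c := by ring
  rw [this, hc]
  field_simp

/-- Roots close to one. -/
theorem exists_root {s : ℝ} (hs : 0 < s) {ε : ℝ} (hε : 0 < ε) :
    ∃ (τ : ℝ) (N : ℕ), 0 < τ ∧ τ ^ N = s ∧ |τ⁻¹ - τ| ≤ ε := by
  have h1 : Tendsto (fun N : ℕ => s ^ ((1 : ℝ) / (N : ℝ))) atTop (𝓝 1) := by
    have h := Tendsto.rpow (tendsto_const_nhds (x := s) (f := atTop))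
      tendsto_one_div_atTop_nhds_zero_nat (Or.inl (ne_of_gt hs))
    rwa [Real.rpow_zero] at h
  have h2 : Tendsto (fun N : ℕ => |(s ^ ((1 : ℝ) / (N : ℝ)))⁻¹ - s ^ ((1 : ℝ) / (N : ℝ))|) atTop
      (𝓝 0) := by
    have h := ((h1.inv₀ one_ne_zero).sub h1).abs
    simpa using h
  obtain ⟨N, hN1, hN2⟩ := ((h2.eventually_lt_const hε).and (eventually_ge_atTop 1)).exists
  refine ⟨s ^ ((1 : ℝ) / (N : ℝ)), N, Real.rpow_pos_of_pos hs _, ?_, hN1.le⟩
  have hN0 : (N : ℝ) ≠ 0 := by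
    have : (0 : ℝ) < N := by exact_mod_cast hN2
    exact ne_of_gt this
  rw [← Real.rpow_natCast, ← Real.rpow_mul hs.le, one_div_mul_cancel hN0, Real.rpow_one]

/-! ### Bounded genus -/

/-- The construction: two additional handles make all elements of a generating set with `2 g`
elements close to rotations. -/
theorem exists_gen (E n : ℕ) (hn : 2 * (E + 1) < n) (σ : ℝ) (hσ : σ = 1 ∨ σ = -1) (e : ℤ)
    (he : (e : ℝ) = -(σ * E)) (ε : ℝ) (hε : 0 < ε) :
    ∃ (u : Fin (n + 2) × Bool → SurfaceGroup (n + 2)) (ρ : SurfaceGroup (n + 2) →* PSL2R),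
      Subgroup.closure (Set.range u) = ⊤ ∧ HasEulerNumber ρ e ∧
        NearRotations ε (Set.range u) ρ := by
  have hpi := pi_pos
  have hn0 : (0:ℝ) < n := by
    have : 0 < n := by omega
    exact_mod_cast this
  have hnR : 2 * ((E:ℝ) + 1) < n := by exact_mod_cast hn
  have hE0 : (0:ℝ) ≤ E := Nat.cast_nonneg E
  set θ : ℝ := π / n with hθ
  set ψ : ℝ := (E + 1) * π / n with hψ
  have hθ0 : 0 < θ := by positivity
  have hψ0 : 0 < ψ := by positivity
  have hψ1 : ψ < π / 2 := by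
    rw [hψ, div_lt_div_iff₀ hn0 (by norm_num)]
    nlinarith
  have hθψ : θ ≤ ψ := by
    rw [hθ, hψ]
    apply div_le_div_of_nonneg_right _ hn0.le
    nlinarith
  obtain ⟨s, hs, hst⟩ := exists_s' hψ1 hθ0 hθψ
  obtain ⟨τ, N, hτ, hτN, hτε⟩ := exists_root hs hε
  have hnθ : (n : ℝ) * θ = π := by rw [hθ]; field_simp
  have hprod := main_prod_sign (mul_pos hs hs) hst hψ0 hψ1 hθ0 n (by omega) hnθ s hs rfl
    σ hσ
  let Ab : Fin n → (ℝ ≃ₜ ℝ) := fun k =>
    tr (σ * (2 * ψ)) ^ (k : ℕ) * hT s hs * (tr (σ * (2 * ψ)) ^ (k : ℕ))⁻¹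
  let A : Fin (n + 2) → (ℝ ≃ₜ ℝ) := Fin.cons (hT τ hτ) (Fin.cons (tr (σ * (2 * ψ))) Ab)
  let B : Fin (n + 2) → (ℝ ≃ₜ ℝ) := Fin.cons 1 (Fin.cons 1 (fun _ : Fin n => tr (σ * π)))
  let ab : Fin n → PSL2R := fun k =>
    rot (σ * (2 * ψ)) ^ (k : ℕ) * (dMat s hs : PSL2R) * (rot (σ * (2 * ψ)) ^ (k : ℕ))⁻¹
  let a : Fin (n + 2) → PSL2R := Fin.cons (dMat τ hτ : PSL2R) (Fin.cons (rot (σ * (2 * ψ))) ab)
  let b : Fin (n + 2) → PSL2R := Fin.cons 1 (Fin.cons 1 (fun _ : Fin n => rot (σ * π)))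
  have hlA : ∀ k, IsLift (a k) (A k) := by
    intro k
    refine Fin.cases ?_ (fun k => Fin.cases ?_ (fun k => ?_) k) k
    · exact isLift_hT τ hτ
    · exact isLift_rot _
    · exact (((isLift_rot _).pow _).mul (isLift_hT s hs)).mul ((isLift_rot _).pow _).inv
  have hlB : ∀ k, IsLift (b k) (B k) := by
    intro k
    refine Fin.cases ?_ (fun k => Fin.cases ?_ (fun k => ?_) k) k
    · exact IsLift.one
    · exact IsLift.one
    · exact isLift_rot _
  have htrans : ∀ x, (List.ofFn fun i => ⁅A i, B i⁆).prod x = x + 2 * π * e := by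
    intro x
    have e1 : (List.ofFn fun i => ⁅A i, B i⁆).prod = tr (σ * (2 * π - n * (2 * ψ))) := by
      rw [List.ofFn_succ, List.ofFn_succ, List.prod_cons, List.prod_cons]
      have c0 : ⁅A 0, B 0⁆ = 1 := commutatorElement_one_right _
      have c1 : ⁅A (Fin.succ 0), B (Fin.succ 0)⁆ = 1 := commutatorElement_one_right _
      rw [c0, c1, one_mul, one_mul, ← hprod]
      rfl
    rw [e1]
    simp only [tr, Homeomorph.coe_addRight]
    rw [he, hψ]
    field_simp
    ring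
  have hrel : (List.ofFn fun i => ⁅a i, b i⁆).prod = 1 :=
    eq_one_of_lift (IsLift.ofFn_prod _ _ fun i => (hlA i).comm (hlB i)) e htrans
  set f : Fin (n + 2) × Bool → PSL2R := fun i => if i.2 then b i.1 else a i.1 with hf'
  have hfr : ∀ r ∈ ({surfaceRelator (n + 2)} : Set (FreeGroup (Fin (n + 2) × Bool))),
      FreeGroup.lift f r = 1 := by
    intro r hr
    rw [Set.mem_singleton_iff] at hr
    rw [hr]
    unfold surfaceRelator
    rw [map_list_prod, List.map_ofFn, ← hrel]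
    congr 2
    funext i
    simp [hf', commutatorElement_def]
  set ρ : SurfaceGroup (n + 2) →* PSL2R := PresentedGroup.toGroup hfr with hρ
  have hρa : ∀ i, ρ (PresentedGroup.of (i, false)) = a i := by
    intro i
    rw [hρ, PresentedGroup.toGroup.of]
    simp [hf']
  have hρb : ∀ i, ρ (PresentedGroup.of (i, true)) = b i := by
    intro i
    rw [hρ, PresentedGroup.toGroup.of]
    simp [hf']
  let x0 : SurfaceGroup (n + 2) := PresentedGroup.of (0, false)
  let x1 : SurfaceGroup (n + 2) := PresentedGroup.of (Fin.succ 0, false)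
  let w : Fin n → SurfaceGroup (n + 2) := fun k => x1 ^ (k : ℕ) * x0 ^ N * (x1 ^ (k : ℕ))⁻¹
  let v : Fin (n + 2) → SurfaceGroup (n + 2) := Fin.cons x0 (Fin.cons x1 (fun k : Fin n =>
    (w k)⁻¹ * PresentedGroup.of (k.succ.succ, false)))
  let u : Fin (n + 2) × Bool → SurfaceGroup (n + 2) := fun p =>
    if p.2 then PresentedGroup.of (p.1, true) else v p.1
  have hw : ∀ k, ρ (w k) = ab k := by
    intro k
    have h0 : ρ x0 = (dMat τ hτ : PSL2R) := hρa 0
    have h1 : ρ x1 = rot (σ * (2 * ψ)) := hρa (Fin.succ 0)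
    have h2 : (dMat τ hτ : PSL2R) ^ N = (dMat s hs : PSL2R) := by
      rw [← QuotientGroup.mk_pow, dMat_pow]
      congr 1
      subst hτN
      rfl
    change ρ (x1 ^ (k : ℕ) * x0 ^ N * (x1 ^ (k : ℕ))⁻¹) = _
    rw [map_mul, map_mul, map_inv, map_pow, map_pow, h0, h1, h2]
  refine ⟨u, ρ, ?_, ⟨A, B, fun i => ?_, fun i => ?_, htrans⟩, ?_⟩
  · -- generation
    rw [eq_top_iff, ← PresentedGroup.closure_range_of, Subgroup.closure_le]
    have hu : ∀ p, u p ∈ Subgroup.closure (Set.range u) := fun p =>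
      Subgroup.subset_closure ⟨p, rfl⟩
    have m0 : x0 ∈ Subgroup.closure (Set.range u) := hu (0, false)
    have m1 : x1 ∈ Subgroup.closure (Set.range u) := hu (Fin.succ 0, false)
    rintro _ ⟨⟨i, c⟩, rfl⟩
    cases c with
    | true => exact hu (i, true)
    | false =>
      refine Fin.cases ?_ (fun i => Fin.cases ?_ (fun k => ?_) i) i
      · exact m0
      · exact m1
      · have m2 : w k ∈ Subgroup.closure (Set.range u) :=
          Subgroup.mul_mem _ (Subgroup.mul_mem _ (Subgroup.pow_mem _ m1 _)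
            (Subgroup.pow_mem _ m0 _)) (Subgroup.inv_mem _ (Subgroup.pow_mem _ m1 _))
        have m3 : (w k)⁻¹ * PresentedGroup.of (k.succ.succ, false) ∈
            Subgroup.closure (Set.range u) := hu (k.succ.succ, false)
        have m4 := Subgroup.mul_mem _ m2 m3
        rwa [mul_inv_cancel_left] at m4
  · rw [hρa]; exact hlA i
  · rw [hρb]; exact hlB i
  · have hone : ClosePSL ε (1 : PSL2R) (rot 0) := by
      apply close_of_lift IsLift.one
      intro x
      simp [hε.le]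
    have hrot : ∀ t : ℝ, ClosePSL ε (rot t) (rot t) := by
      intro t
      apply close_of_lift (isLift_rot t)
      intro x
      simp only [tr, Homeomorph.coe_addRight, sub_self, abs_zero]
      exact hε.le
    rintro _ ⟨⟨i, c⟩, rfl⟩
    cases c with
    | true =>
      change ∃ t, ClosePSL ε (ρ (PresentedGroup.of (i, true))) (rot t)
      rw [hρb]
      refine Fin.cases ?_ (fun i => Fin.cases ?_ (fun k => ?_) i) i
      · exact ⟨0, hone⟩
      · exact ⟨0, hone⟩
      · exact ⟨σ * π, hrot _⟩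
    | false =>
      change ∃ t, ClosePSL ε (ρ (v i)) (rot t)
      refine Fin.cases ?_ (fun i => Fin.cases ?_ (fun k => ?_) i) i
      · refine ⟨0, ?_⟩
        change ClosePSL ε (ρ (PresentedGroup.of (0, false))) (rot 0)
        rw [hρa]
        apply close_of_lift (isLift_hT τ hτ)
        intro x
        change |hf τ x - (x + 0)| ≤ ε
        have e1 : hf τ x - (x + 0) = dl τ x := by unfold hf; ring
        rw [e1]
        exact (abs_dl_le hτ x).trans hτε
      · refine ⟨σ * (2 * ψ), ?_⟩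
        change ClosePSL ε (ρ (PresentedGroup.of (Fin.succ 0, false))) (rot (σ * (2 * ψ)))
        rw [hρa]
        exact hrot _
      · refine ⟨0, ?_⟩
        change ClosePSL ε (ρ ((w k)⁻¹ * PresentedGroup.of (k.succ.succ, false))) (rot 0)
        rw [map_mul, map_inv, hw, hρa]
        have : (ab k)⁻¹ * a k.succ.succ = 1 := inv_mul_cancel _
        rw [this]
        exact hone

/-! ### The lower bound for the standard generators -/

theorem const_shift {p : PSL2R} {F : ℝ ≃ₜ ℝ} (hF : IsLift p F) {ε t : ℝ} (hε : ε < π)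
    (hc : ClosePSL ε p (rot t)) : ∃ a : ℝ, ∀ x, |F x - (x + a)| ≤ ε := by
  have h : ∀ x, ∃ k : ℤ, |F x - (x + t) - 2 * π * k| ≤ ε := fun x =>
    hc x (F x) (x + t) (hF.2 x) ((isLift_rot t).2 x)
  obtain ⟨k0, hk0⟩ := h 0
  have hpi := pi_pos
  have key : ∀ x, |F x - (x + t) - 2 * π * k0| < π → |F x - (x + t) - 2 * π * k0| ≤ ε := by
    intro x hx
    obtain ⟨k, hk⟩ := h x
    have h1 : |2 * π * ((k : ℝ) - k0)| < 2 * π := by
      have e : 2 * π * ((k : ℝ) - k0) =
          (F x - (x + t) - 2 * π * k0) - (F x - (x + t) - 2 * π * k) := by ring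
      rw [e]
      have := abs_sub (F x - (x + t) - 2 * π * k0) (F x - (x + t) - 2 * π * k)
      linarith
    have h2 : |(k : ℝ) - k0| < 1 := by
      rw [abs_mul, abs_of_pos (show (0 : ℝ) < 2 * π by positivity)] at h1
      by_contra hcon
      push Not at hcon
      nlinarith
    have h3 : k = k0 := by
      have h4 : |k - k0| < 1 := by exact_mod_cast h2
      have h5 : k - k0 = 0 := Int.abs_lt_one_iff.mp h4
      omega
    rwa [h3] at hk
  have hclopen : IsClopen {x : ℝ | |F x - (x + t) - 2 * π * k0| ≤ ε} := by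
    have hcont : Continuous fun x : ℝ => |F x - (x + t) - 2 * π * k0| := by
      have := F.continuous
      fun_prop
    refine ⟨isClosed_le hcont continuous_const, ?_⟩
    have e : {x : ℝ | |F x - (x + t) - 2 * π * k0| ≤ ε} =
        {x : ℝ | |F x - (x + t) - 2 * π * k0| < π} := by
      ext x
      exact ⟨fun hx => lt_of_le_of_lt hx hε, fun hx => key x hx⟩
    rw [e]
    exact isOpen_lt hcont continuous_const
  have huniv := hclopen.eq_univ ⟨0, hk0⟩
  refine ⟨t + 2 * π * k0, fun x => ?_⟩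
  have hx : x ∈ {x : ℝ | |F x - (x + t) - 2 * π * k0| ≤ ε} := by rw [huniv]; trivial
  have e : F x - (x + (t + 2 * π * k0)) = F x - (x + t) - 2 * π * k0 := by ring
  rw [e]
  exact hx

theorem comm_close {F G : ℝ ≃ₜ ℝ} {a b ε : ℝ} (hF : ∀ x, |F x - (x + a)| ≤ ε)
    (hG : ∀ x, |G x - (x + b)| ≤ ε) (x : ℝ) : |⁅F, G⁆ x - x| ≤ 4 * ε := by
  have h1 := hG (G⁻¹ x)
  have h2 := hF (F⁻¹ (G⁻¹ x))
  have h3 := hG (F⁻¹ (G⁻¹ x))
  have h4 := hF (G (F⁻¹ (G⁻¹ x)))
  have e1 : G (G⁻¹ x) = x := G.apply_symm_apply x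
  have e2 : F (F⁻¹ (G⁻¹ x)) = G⁻¹ x := F.apply_symm_apply _
  rw [e1] at h1
  rw [e2] at h2
  have e3 : ⁅F, G⁆ x = F (G (F⁻¹ (G⁻¹ x))) := rfl
  rw [e3]
  rw [abs_le] at *
  constructor <;> linarith [h1.1, h1.2, h2.1, h2.2, h3.1, h3.2, h4.1, h4.2]

theorem prod_close : ∀ (l : List (ℝ ≃ₜ ℝ)) {δ : ℝ}, (∀ F ∈ l, ∀ x, |F x - x| ≤ δ) →
    ∀ x, |l.prod x - x| ≤ l.length * δ
  | [], δ, _, x => by simp
  | F :: l, δ, h, x => by
    have h1 := h F (by simp) (l.prod x)
    have h2 := prod_close l (fun G hG => h G (by simp [hG])) x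
    have e : (F :: l).prod x = F (l.prod x) := by
      rw [List.prod_cons]; rfl
    rw [e]
    have h3 := abs_add_le (F (l.prod x) - l.prod x) (l.prod x - x)
    rw [sub_add_sub_cancel] at h3
    push_cast [List.length_cons]
    linarith

/-- If the standard generators are `ε`-close to rotations, the genus is at least
`π |e| / (2 ε)`. -/
theorem std_lower {g : ℕ} {e : ℤ} {ε : ℝ} (h0 : 0 < ε) (h1 : ε < π)
    {ρ : SurfaceGroup g →* PSL2R} (hE : HasEulerNumber ρ e)
    (hn : NearRotations ε (Set.range PresentedGroup.of) ρ) : π * |(e : ℝ)| / (2 * ε) ≤ g := by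
  have hpi := pi_pos
  obtain ⟨α, β, hα, hβ, hp⟩ := hE
  have hc : ∀ i, ∀ x, |⁅α i, β i⁆ x - x| ≤ 4 * ε := by
    intro i
    obtain ⟨t, ht⟩ := hn _ ⟨(i, false), rfl⟩
    obtain ⟨t', ht'⟩ := hn _ ⟨(i, true), rfl⟩
    obtain ⟨a, ha⟩ := const_shift (hα i) h1 ht
    obtain ⟨b, hb⟩ := const_shift (hβ i) h1 ht'
    exact comm_close ha hb
  have h2 := prod_close (List.ofFn fun i => ⁅α i, β i⁆) (δ := 4 * ε) (by
    intro F hF x
    rw [List.mem_ofFn] at hF
    obtain ⟨i, rfl⟩ := hF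
    exact hc i x) 0
  rw [hp 0, List.length_ofFn] at h2
  have e1 : |0 + 2 * π * (e : ℝ) - 0| = 2 * π * |(e : ℝ)| := by
    rw [zero_add, sub_zero, abs_mul, abs_of_pos (show (0 : ℝ) < 2 * π by positivity)]
  rw [e1] at h2
  rw [div_le_iff₀ (by positivity)]
  linarith

end Y912.MW
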